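import Mathlib

set_option autoImplicit false

open MeasureTheory Matrix
open scoped ENNReal

namespace Pool.Agent.Results.MP_b8a264_an.NotDense

/-- A Brascamp-Lieb datum `(B, c)`: for each `i < k` a surjective linear map
`ℝ^d → ℝ^(n i)`, given by its matrix `B i`, and an exponent `c i > 0`. -/
structure BLDatum (k d : ℕ) (n : Fin k → ℕ) where
  /-- the matrices of the linear maps -/
  B : ∀ i : Fin k, Matrix (Fin (n i)) (Fin d) ℝ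
  /-- the exponents -/
  c : Fin k → ℝ
  /-- each linear map is onto -/
  onto : ∀ i, Function.Surjective (fun x : Fin d → ℝ => B i *ᵥ x)
  /-- each exponent is positive -/
  pos : ∀ i, 0 < c i

variable {k d : ℕ} {n : Fin k → ℕ}

/-- The datum is feasible: the Brascamp-Lieb inequality
`∫ ∏ f_i(B_i x)^(c_i) dx ≤ C ∏ (∫ f_i)^(c_i)` holds with some finite constant `C`
for all nonnegative integrable `f_i`. -/
def BLDatum.Feasible (D : BLDatum k d n) : Prop :=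
  ∃ C : ℝ, ∀ f : ∀ i : Fin k, (Fin (n i) → ℝ) → ℝ,
    (∀ i, Integrable (f i)) → (∀ i y, 0 ≤ f i y) →
      ∫⁻ x : Fin d → ℝ, ENNReal.ofReal (∏ i, (f i (D.B i *ᵥ x)) ^ (D.c i))
        ≤ ENNReal.ofReal (C * ∏ i, (∫ y, f i y) ^ (D.c i))

/-- The quantity
`(∏ (det A_i)^(c_i) / det (∑ c_i B_iᵀ A_i B_i))^(1/2)` in `[0, ∞]`. -/
noncomputable def BLDatum.gaussVal (D : BLDatum k d n)
    (A : ∀ i : Fin k, Matrix (Fin (n i)) (Fin (n i)) ℝ) : ℝ≥0∞ :=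
  (ENNReal.ofReal (∏ i, (A i).det ^ (D.c i)) /
    ENNReal.ofReal (∑ i, D.c i • ((D.B i)ᵀ * A i * D.B i)).det) ^ (1 / 2 : ℝ)

/-- The gaussian constant: the supremum of `gaussVal` over all tuples of
positive definite matrices. -/
noncomputable def BLDatum.gaussConst (D : BLDatum k d n) : ℝ≥0∞ :=
  ⨆ (A : ∀ i : Fin k, Matrix (Fin (n i)) (Fin (n i)) ℝ) (_ : ∀ i, (A i).PosDef), D.gaussVal A

/-- The datum is gaussian extremizable: the gaussian constant is finite and attained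
by some tuple of positive definite matrices. -/
def BLDatum.GaussianExtremizable (D : BLDatum k d n) : Prop :=
  D.gaussConst ≠ ⊤ ∧
    ∃ A : ∀ i : Fin k, Matrix (Fin (n i)) (Fin (n i)) ℝ,
      (∀ i, (A i).PosDef) ∧ D.gaussVal A = D.gaussConst

/-! ### The determinant formula -/

/-- The vector `w = B₁ (b₂ × b₃)`. -/
def wvec (B1 : Matrix (Fin 2) (Fin 3) ℝ) (b2 b3 : Matrix (Fin 1) (Fin 3) ℝ) (j : Fin 2) : ℝ :=
  B1 j 0 * (b2 0 1 * b3 0 2 - b2 0 2 * b3 0 1)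
    + B1 j 1 * (b2 0 2 * b3 0 0 - b2 0 0 * b3 0 2)
    + B1 j 2 * (b2 0 0 * b3 0 1 - b2 0 1 * b3 0 0)

/-- `b · (r₁ × r₂)` for the rows `r₁, r₂` of `B₁`. -/
def beta (B1 : Matrix (Fin 2) (Fin 3) ℝ) (b : Matrix (Fin 1) (Fin 3) ℝ) : ℝ :=
  b 0 0 * (B1 0 1 * B1 1 2 - B1 0 2 * B1 1 1)
    + b 0 1 * (B1 0 2 * B1 1 0 - B1 0 0 * B1 1 2)
    + b 0 2 * (B1 0 0 * B1 1 1 - B1 0 1 * B1 1 0)

lemma det_formula (B1 : Matrix (Fin 2) (Fin 3) ℝ) (b2 b3 : Matrix (Fin 1) (Fin 3) ℝ)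
    (A1 : Matrix (Fin 2) (Fin 2) ℝ) (A2 A3 : Matrix (Fin 1) (Fin 1) ℝ) (c1 c2 c3 : ℝ)
    (hA : A1 1 0 = A1 0 1) :
    (c1 • (B1ᵀ * A1 * B1) + c2 • (b2ᵀ * A2 * b2) + c3 • (b3ᵀ * A3 * b3)).det
      = c1 ^ 2 * A1.det * (c2 * A2 0 0 * beta B1 b2 ^ 2 + c3 * A3 0 0 * beta B1 b3 ^ 2)
        + c1 * c2 * c3 * A2 0 0 * A3 0 0 *
          (A1 0 0 * wvec B1 b2 b3 0 ^ 2 + 2 * A1 0 1 * wvec B1 b2 b3 0 * wvec B1 b2 b3 1
            + A1 1 1 * wvec B1 b2 b3 1 ^ 2) := by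
  simp only [det_fin_three, det_fin_two, Matrix.add_apply, Matrix.smul_apply, Matrix.mul_apply,
    Matrix.transpose_apply, Fin.sum_univ_two, smul_eq_mul, beta, wvec, hA,
    Finset.univ_unique, Fin.default_eq_zero, Finset.sum_singleton, Fin.isValue]
  ring

/-! ### Nearby data are never gaussian extremizable -/

/-- Pack three matrices into a tuple indexed by `Fin 3`. -/
def tup (A1 : Matrix (Fin 2) (Fin 2) ℝ) (A2 A3 : Matrix (Fin 1) (Fin 1) ℝ) :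
    ∀ i : Fin 3, Matrix (Fin (![2, 1, 1] i)) (Fin (![2, 1, 1] i)) ℝ
  | 0 => A1
  | 1 => A2
  | 2 => A3

lemma posDef_two_symm {A : Matrix (Fin 2) (Fin 2) ℝ} (h : A.PosDef) : A 1 0 = A 0 1 := by
  have := congrFun (congrFun h.1 0) 1
  simpa [Matrix.conjTranspose_apply] using this

lemma posDef_two_quad {A : Matrix (Fin 2) (Fin 2) ℝ} (h : A.PosDef) {x y : ℝ}
    (hxy : x ≠ 0 ∨ y ≠ 0) : 0 < A 0 0 * x ^ 2 + 2 * A 0 1 * x * y + A 1 1 * y ^ 2 := by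
  have h2 := (posDef_iff_dotProduct_mulVec.mp h).2
  have hne : (![x, y] : Fin 2 → ℝ) ≠ 0 := by
    intro h0
    rcases hxy with hx | hy
    · exact hx (by simpa using congrFun h0 0)
    · exact hy (by simpa using congrFun h0 1)
  have := h2 hne
  simp only [star_trivial, dotProduct, mulVec, Fin.sum_univ_two, Matrix.cons_val_zero,
    Matrix.cons_val_one, posDef_two_symm h] at this
  nlinarith [this]

/-- the test matrix `t w wᵀ + w^⊥ (w^⊥)ᵀ` -/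
def testMat (t w0 w1 : ℝ) : Matrix (Fin 2) (Fin 2) ℝ :=
  !![t * w0 ^ 2 + w1 ^ 2, t * w0 * w1 - w0 * w1; t * w0 * w1 - w0 * w1, t * w1 ^ 2 + w0 ^ 2]

lemma testMat_det (t w0 w1 : ℝ) : (testMat t w0 w1).det = t * (w0 ^ 2 + w1 ^ 2) ^ 2 := by
  simp [testMat, det_fin_two]; ring

lemma testMat_posDef {t w0 w1 : ℝ} (ht : 0 < t) (hw : w0 ≠ 0 ∨ w1 ≠ 0) :
    (testMat t w0 w1).PosDef := by
  rw [posDef_iff_dotProduct_mulVec]
  have hW : 0 < w0 ^ 2 + w1 ^ 2 := by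
    rcases hw with h | h <;> positivity
  refine ⟨?_, ?_⟩
  · ext i j
    fin_cases i <;> fin_cases j <;> simp [testMat]
  · intro x hx
    have hx' : x 0 ≠ 0 ∨ x 1 ≠ 0 := by
      by_contra hcon
      push Not at hcon
      apply hx
      ext i
      fin_cases i
      · exact hcon.1
      · exact hcon.2
    have hX : 0 < x 0 ^ 2 + x 1 ^ 2 := by
      rcases hx' with h | h <;> positivity
    have key : star x ⬝ᵥ (testMat t w0 w1 *ᵥ x)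
        = t * (w0 * x 0 + w1 * x 1) ^ 2 + (w1 * x 0 - w0 * x 1) ^ 2 := by
      simp [testMat, dotProduct, mulVec, Fin.sum_univ_two]
      ring
    rw [key]
    have h1 : (w0 * x 0 + w1 * x 1) ^ 2 + (w1 * x 0 - w0 * x 1) ^ 2
        = (w0 ^ 2 + w1 ^ 2) * (x 0 ^ 2 + x 1 ^ 2) := by ring
    have h2 : 0 < (w0 ^ 2 + w1 ^ 2) * (x 0 ^ 2 + x 1 ^ 2) := mul_pos hW hX
    rcases lt_or_ge 0 ((w1 * x 0 - w0 * x 1) ^ 2) with h3 | h3
    · have : 0 ≤ t * (w0 * x 0 + w1 * x 1) ^ 2 := by positivity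
      linarith
    · have h4 : 0 < (w0 * x 0 + w1 * x 1) ^ 2 := by linarith
      have : 0 < t * (w0 * x 0 + w1 * x 1) ^ 2 := mul_pos ht h4
      have h5 : 0 ≤ (w1 * x 0 - w0 * x 1) ^ 2 := sq_nonneg _
      linarith

/-- the denominator, in closed form -/
def den (B1 : Matrix (Fin 2) (Fin 3) ℝ) (b2 b3 : Matrix (Fin 1) (Fin 3) ℝ) (c1 c2 c3 : ℝ)
    (A1 : Matrix (Fin 2) (Fin 2) ℝ) (A2 A3 : Matrix (Fin 1) (Fin 1) ℝ) : ℝ :=
  c1 ^ 2 * A1.det * (c2 * A2 0 0 * beta B1 b2 ^ 2 + c3 * A3 0 0 * beta B1 b3 ^ 2)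
    + c1 * c2 * c3 * A2 0 0 * A3 0 0 *
      (A1 0 0 * wvec B1 b2 b3 0 ^ 2 + 2 * A1 0 1 * wvec B1 b2 b3 0 * wvec B1 b2 b3 1
        + A1 1 1 * wvec B1 b2 b3 1 ^ 2)

lemma gaussVal_eq (D : BLDatum 3 3 ![2, 1, 1]) (A1 : Matrix (Fin 2) (Fin 2) ℝ)
    (A2 A3 : Matrix (Fin 1) (Fin 1) ℝ) (h1 : A1.PosDef)
    (hden : 0 < den (D.B 0) (D.B 1) (D.B 2) (D.c 0) (D.c 1) (D.c 2) A1 A2 A3) :
    D.gaussVal (tup A1 A2 A3) =
      (ENNReal.ofReal ((A1.det ^ (D.c 0) * A2.det ^ (D.c 1) * A3.det ^ (D.c 2)) /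
        den (D.B 0) (D.B 1) (D.B 2) (D.c 0) (D.c 1) (D.c 2) A1 A2 A3)) ^ (1 / 2 : ℝ) := by
  have hdet : (∑ i, D.c i • ((D.B i)ᵀ * tup A1 A2 A3 i * D.B i)).det
      = den (D.B 0) (D.B 1) (D.B 2) (D.c 0) (D.c 1) (D.c 2) A1 A2 A3 := by
    rw [Fin.sum_univ_three]
    exact det_formula (D.B 0) (D.B 1) (D.B 2) A1 A2 A3 (D.c 0) (D.c 1) (D.c 2)
      (posDef_two_symm h1)
  have hprod : (∏ i, (tup A1 A2 A3 i).det ^ (D.c i))
      = A1.det ^ (D.c 0) * A2.det ^ (D.c 1) * A3.det ^ (D.c 2) := by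
    rw [Fin.prod_univ_three]
    rfl
  unfold BLDatum.gaussVal
  rw [hdet, hprod, ENNReal.ofReal_div_of_pos hden]

lemma tup_eta (A : ∀ i : Fin 3, Matrix (Fin (![2, 1, 1] i)) (Fin (![2, 1, 1] i)) ℝ) :
    A = tup (A 0) (A 1) (A 2) := by
  funext i
  fin_cases i <;> rfl

lemma tup_posDef {A1 : Matrix (Fin 2) (Fin 2) ℝ} {A2 A3 : Matrix (Fin 1) (Fin 1) ℝ}
    (h1 : A1.PosDef) (h2 : A2.PosDef) (h3 : A3.PosDef) : ∀ i, (tup A1 A2 A3 i).PosDef := by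
  intro i
  fin_cases i
  · exact h1
  · exact h2
  · exact h3

/-- The real-valued quotient. -/
noncomputable def quo (B1 : Matrix (Fin 2) (Fin 3) ℝ) (b2 b3 : Matrix (Fin 1) (Fin 3) ℝ)
    (c1 c2 c3 : ℝ) (X : Matrix (Fin 2) (Fin 2) ℝ) (Y Z : Matrix (Fin 1) (Fin 1) ℝ) : ℝ :=
  (X.det ^ c1 * Y.det ^ c2 * Z.det ^ c3) / den B1 b2 b3 c1 c2 c3 X Y Z

section core

variable {B1 : Matrix (Fin 2) (Fin 3) ℝ} {b2 b3 : Matrix (Fin 1) (Fin 3) ℝ} {c1 c2 c3 : ℝ}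

lemma den_pos (hc1 : 0 < c1) (hc2 : 0 < c2) (hc3 : 0 < c3)
    (hw : wvec B1 b2 b3 0 ≠ 0 ∨ wvec B1 b2 b3 1 ≠ 0)
    {X : Matrix (Fin 2) (Fin 2) ℝ} {Y Z : Matrix (Fin 1) (Fin 1) ℝ}
    (hX : X.PosDef) (hY : Y.PosDef) (hZ : Z.PosDef) :
    0 < den B1 b2 b3 c1 c2 c3 X Y Z := by
  have hq := posDef_two_quad hX hw
  have hy := hY.diag_pos (i := 0)
  have hz := hZ.diag_pos (i := 0)
  have hdx := hX.det_pos
  unfold den
  have t1 : 0 ≤ c1 ^ 2 * X.det * (c2 * Y 0 0 * beta B1 b2 ^ 2 + c3 * Z 0 0 * beta B1 b3 ^ 2) := by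
    positivity
  have t2 : 0 < c1 * c2 * c3 * Y 0 0 * Z 0 0 * (X 0 0 * wvec B1 b2 b3 0 ^ 2
      + 2 * X 0 1 * wvec B1 b2 b3 0 * wvec B1 b2 b3 1 + X 1 1 * wvec B1 b2 b3 1 ^ 2) := by
    positivity
  linarith

lemma quo_pos (hc1 : 0 < c1) (hc2 : 0 < c2) (hc3 : 0 < c3)
    (hw : wvec B1 b2 b3 0 ≠ 0 ∨ wvec B1 b2 b3 1 ≠ 0)
    {X : Matrix (Fin 2) (Fin 2) ℝ} {Y Z : Matrix (Fin 1) (Fin 1) ℝ}
    (hX : X.PosDef) (hY : Y.PosDef) (hZ : Z.PosDef) :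
    0 < quo B1 b2 b3 c1 c2 c3 X Y Z := by
  have h1 := hX.det_pos
  have h2 := hY.det_pos
  have h3 := hZ.det_pos
  have h4 := den_pos hc1 hc2 hc3 hw hX hY hZ
  unfold quo
  positivity

/-- The quotient is unbounded when `c₁ < 1`. -/
lemma one_le_c1 (hc1 : 0 < c1) (hc2 : 0 < c2) (hc3 : 0 < c3)
    (hw : wvec B1 b2 b3 0 ≠ 0 ∨ wvec B1 b2 b3 1 ≠ 0) {S : ℝ} (hSpos : 0 < S)
    (hle : ∀ (X : Matrix (Fin 2) (Fin 2) ℝ) (Y Z : Matrix (Fin 1) (Fin 1) ℝ),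
      X.PosDef → Y.PosDef → Z.PosDef → quo B1 b2 b3 c1 c2 c3 X Y Z ≤ S) : 1 ≤ c1 := by
  by_contra hlt
  push Not at hlt
  obtain ⟨w0, hw0⟩ : ∃ w0, w0 = wvec B1 b2 b3 0 := ⟨_, rfl⟩
  obtain ⟨w1, hw1⟩ : ∃ w1, w1 = wvec B1 b2 b3 1 := ⟨_, rfl⟩
  rw [← hw0, ← hw1] at hw
  obtain ⟨W, hW⟩ : ∃ W, W = w0 ^ 2 + w1 ^ 2 := ⟨_, rfl⟩
  have hWpos : 0 < W := by
    rw [hW]
    rcases hw with h | h <;> positivity
  obtain ⟨κ, hκ⟩ : ∃ κ, κ = c1 ^ 2 * (c2 * beta B1 b2 ^ 2 + c3 * beta B1 b3 ^ 2)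
    + c1 * c2 * c3 := ⟨_, rfl⟩
  have hκpos : 0 < κ := by rw [hκ]; positivity
  obtain ⟨s, hs⟩ : ∃ s, s = (S * κ + 1) ^ (1 / (c1 - 1)) := ⟨_, rfl⟩
  have hspos : 0 < s := by rw [hs]; positivity
  have hpow : s ^ (c1 - 1) = S * κ + 1 := by
    rw [hs, ← Real.rpow_mul (by positivity), one_div_mul_cancel (by linarith), Real.rpow_one]
  have hone : (1 : Matrix (Fin 1) (Fin 1) ℝ).PosDef := Matrix.PosDef.one
  have htpos : 0 < s / W ^ 2 := by positivity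
  have hX := testMat_posDef htpos hw
  have hbound := hle (testMat (s / W ^ 2) w0 w1) 1 1 hX hone hone
  have hdetX : (testMat (s / W ^ 2) w0 w1).det = s := by
    rw [testMat_det, ← hW]
    field_simp
  have hden1 : den B1 b2 b3 c1 c2 c3 (testMat (s / W ^ 2) w0 w1) 1 1 = s * κ := by
    unfold den
    rw [hdetX, ← hw0, ← hw1]
    have hq : (testMat (s / W ^ 2) w0 w1) 0 0 * w0 ^ 2
        + 2 * (testMat (s / W ^ 2) w0 w1) 0 1 * w0 * w1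
        + (testMat (s / W ^ 2) w0 w1) 1 1 * w1 ^ 2 = s := by
      have e : (testMat (s / W ^ 2) w0 w1) 0 0 * w0 ^ 2
        + 2 * (testMat (s / W ^ 2) w0 w1) 0 1 * w0 * w1
        + (testMat (s / W ^ 2) w0 w1) 1 1 * w1 ^ 2 = s / W ^ 2 * (w0 ^ 2 + w1 ^ 2) ^ 2 := by
        simp [testMat]
        ring
      rw [e, ← hW]
      field_simp
    rw [hq]
    simp only [Matrix.one_apply_eq, mul_one, hκ]
    ring
  have hval : quo B1 b2 b3 c1 c2 c3 (testMat (s / W ^ 2) w0 w1) 1 1 = (S * κ + 1) / κ := by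
    unfold quo
    rw [hden1, hdetX, Matrix.det_one, Real.one_rpow, Real.one_rpow, mul_one, mul_one, ← hpow,
      Real.rpow_sub_one hspos.ne', div_div]
  rw [hval, div_le_iff₀ hκpos] at hbound
  linarith

/-- The quotient has no maximum. -/
lemma no_max (hc1 : 0 < c1) (hc2 : 0 < c2) (hc3 : 0 < c3)
    (hw : wvec B1 b2 b3 0 ≠ 0 ∨ wvec B1 b2 b3 1 ≠ 0)
    {A1 : Matrix (Fin 2) (Fin 2) ℝ} {A2 A3 : Matrix (Fin 1) (Fin 1) ℝ}
    (hA1 : A1.PosDef) (hA2 : A2.PosDef) (hA3 : A3.PosDef)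
    (hle : ∀ (X : Matrix (Fin 2) (Fin 2) ℝ) (Y Z : Matrix (Fin 1) (Fin 1) ℝ),
      X.PosDef → Y.PosDef → Z.PosDef →
        quo B1 b2 b3 c1 c2 c3 X Y Z ≤ quo B1 b2 b3 c1 c2 c3 A1 A2 A3) : False := by
  have h1c : 1 ≤ c1 := one_le_c1 hc1 hc2 hc3 hw (quo_pos hc1 hc2 hc3 hw hA1 hA2 hA3) hle
  have h2A : ((2 : ℝ) • A1).PosDef := hA1.smul (by norm_num)
  have hlt := hle ((2 : ℝ) • A1) A2 A3 h2A hA2 hA3
  have hd1 := hA1.det_pos
  have hd2 := hA2.det_pos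
  have hd3 := hA3.det_pos
  have hy := hA2.diag_pos (i := 0)
  have hz := hA3.diag_pos (i := 0)
  have hq := posDef_two_quad hA1 hw
  have hdet2 : ((2 : ℝ) • A1).det = 4 * A1.det := by
    rw [Matrix.det_smul]
    norm_num
  obtain ⟨P, hP⟩ : ∃ P, P = c1 ^ 2 * A1.det * (c2 * A2 0 0 * beta B1 b2 ^ 2
        + c3 * A3 0 0 * beta B1 b3 ^ 2) := ⟨_, rfl⟩
  obtain ⟨Q, hQ⟩ : ∃ Q, Q = c1 * c2 * c3 * A2 0 0 * A3 0 0 * (A1 0 0 *
        wvec B1 b2 b3 0 ^ 2 + 2 * A1 0 1 * wvec B1 b2 b3 0 *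
        wvec B1 b2 b3 1 + A1 1 1 * wvec B1 b2 b3 1 ^ 2) := ⟨_, rfl⟩
  have hPnn : 0 ≤ P := by rw [hP]; positivity
  have hQpos : 0 < Q := by rw [hQ]; positivity
  have e1 : den B1 b2 b3 c1 c2 c3 A1 A2 A3 = P + Q := by rw [hP, hQ]; rfl
  have e2 : den B1 b2 b3 c1 c2 c3 ((2 : ℝ) • A1) A2 A3 = 4 * P + 2 * Q := by
    unfold den
    rw [hdet2]
    simp only [Matrix.smul_apply, smul_eq_mul, hP, hQ]
    ring
  unfold quo at hlt
  rw [e1, e2, hdet2, Real.mul_rpow (by norm_num) hd1.le, div_le_div_iff₀ (by linarith)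
    (by linarith)] at hlt
  have h4 : (4 : ℝ) ≤ (4 : ℝ) ^ c1 := by
    calc (4 : ℝ) = (4 : ℝ) ^ (1 : ℝ) := (Real.rpow_one 4).symm
      _ ≤ (4 : ℝ) ^ c1 := Real.rpow_le_rpow_of_exponent_le (by norm_num) h1c
  obtain ⟨R, hR⟩ : ∃ R, R = A1.det ^ c1 * A2.det ^ c2 * A3.det ^ c3 := ⟨_, rfl⟩
  have hRpos : 0 < R := by rw [hR]; positivity
  have e3 : (4 : ℝ) ^ c1 * A1.det ^ c1 * A2.det ^ c2 * A3.det ^ c3
      = (4 : ℝ) ^ c1 * R := by rw [hR]; ring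
  rw [e3, ← hR] at hlt
  have h5 : 4 * R * (P + Q) ≤ (4 : ℝ) ^ c1 * R * (P + Q) := by
    have : 0 ≤ R * (P + Q) := by positivity
    nlinarith
  nlinarith [mul_pos hRpos hQpos]

end core

/-- If `B₁` does not kill `ker B₂ ∩ ker B₃`, the datum is not gaussian extremizable,
whatever the exponents. -/
theorem not_extremizable (D : BLDatum 3 3 ![2, 1, 1])
    (hw : wvec (D.B 0) (D.B 1) (D.B 2) 0 ≠ 0 ∨ wvec (D.B 0) (D.B 1) (D.B 2) 1 ≠ 0) :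
    ¬ D.GaussianExtremizable := by
  rintro ⟨hfin, A, hA, hmax⟩
  rw [tup_eta A] at hmax
  have hA1 : (A 0 : Matrix (Fin 2) (Fin 2) ℝ).PosDef := hA 0
  have hA2 : (A 1 : Matrix (Fin 1) (Fin 1) ℝ).PosDef := hA 1
  have hA3 : (A 2 : Matrix (Fin 1) (Fin 1) ℝ).PosDef := hA 2
  refine no_max (D.pos 0) (D.pos 1) (D.pos 2) hw hA1 hA2 hA3 ?_
  intro X Y Z hX hY hZ
  have h1 : D.gaussVal (tup X Y Z) ≤ D.gaussVal (tup (A 0) (A 1) (A 2)) := by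
    rw [hmax]
    exact le_iSup₂_of_le (tup X Y Z) (tup_posDef hX hY hZ) le_rfl
  rw [gaussVal_eq D X Y Z hX (den_pos (D.pos 0) (D.pos 1) (D.pos 2) hw hX hY hZ),
    gaussVal_eq D (A 0) (A 1) (A 2) hA1 (den_pos (D.pos 0) (D.pos 1) (D.pos 2) hw hA1 hA2 hA3),
    ENNReal.rpow_le_rpow_iff (by norm_num)] at h1
  exact (ENNReal.ofReal_le_ofReal_iff
    (quo_pos (D.pos 0) (D.pos 1) (D.pos 2) hw hA1 hA2 hA3).le).mp h1

/-! ### The feasible datum -/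

/-- The matrices `(x,y,z) ↦ (x,y)`, `(x,y,z) ↦ z`, `(x,y,z) ↦ z - x`. -/
def B0 : ∀ i : Fin 3, Matrix (Fin (![2, 1, 1] i)) (Fin 3) ℝ
  | 0 => (!![1, 0, 0; 0, 1, 0] : Matrix (Fin 2) (Fin 3) ℝ)
  | 1 => (!![0, 0, 1] : Matrix (Fin 1) (Fin 3) ℝ)
  | 2 => (!![-1, 0, 1] : Matrix (Fin 1) (Fin 3) ℝ)

lemma B0_onto (i : Fin 3) : Function.Surjective (fun x : Fin 3 → ℝ => B0 i *ᵥ x) := by
  fin_cases i
  · intro (y : Fin 2 → ℝ)
    refine ⟨![y 0, y 1, 0], ?_⟩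
    change (!![1, 0, 0; 0, 1, 0] : Matrix (Fin 2) (Fin 3) ℝ) *ᵥ ![y 0, y 1, 0] = y
    funext j
    fin_cases j <;> simp [Matrix.mulVec, dotProduct, Fin.sum_univ_three]
  · intro (y : Fin 1 → ℝ)
    refine ⟨![0, 0, y 0], ?_⟩
    change (!![0, 0, 1] : Matrix (Fin 1) (Fin 3) ℝ) *ᵥ ![0, 0, y 0] = y
    funext j
    fin_cases j
    simp [Matrix.mulVec, dotProduct, Fin.sum_univ_three]
  · intro (y : Fin 1 → ℝ)
    refine ⟨![0, 0, y 0], ?_⟩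
    change (!![-1, 0, 1] : Matrix (Fin 1) (Fin 3) ℝ) *ᵥ ![0, 0, y 0] = y
    funext j
    fin_cases j
    simp [Matrix.mulVec, dotProduct, Fin.sum_univ_three]

/-- The datum with exponents `(1, 1/2, 1/2)`. -/
noncomputable def D0 : BLDatum 3 3 ![2, 1, 1] where
  B := B0
  c := ![1, 1 / 2, 1 / 2]
  onto := B0_onto
  pos := by
    intro i
    fin_cases i <;> norm_num

lemma holder_piece {f g : ℝ → ℝ≥0∞} (hf : AEMeasurable f) (hg : AEMeasurable g) (t : ℝ) :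
    ∫⁻ z, f z ^ (1 / 2 : ℝ) * g (z - t) ^ (1 / 2 : ℝ)
      ≤ (∫⁻ z, f z) ^ (1 / 2 : ℝ) * (∫⁻ z, g z) ^ (1 / 2 : ℝ) := by
  have hg' : AEMeasurable (fun z => g (z - t)) :=
    hg.comp_quasiMeasurePreserving (measurePreserving_sub_right volume t).quasiMeasurePreserving
  have h := ENNReal.lintegral_mul_le_Lp_mul_Lq volume
    (Real.HolderConjugate.two_two) (hf.pow_const (1 / 2 : ℝ)) (hg'.pow_const (1 / 2 : ℝ))
  simp only [Pi.mul_apply, ← ENNReal.rpow_mul] at h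
  norm_num at h
  have e : ∫⁻ z, g (z - t) = ∫⁻ z, g z := lintegral_sub_right_eq_self g t
  rw [e] at h
  norm_num
  exact h

lemma funUnique_lintegral (f : (Fin 1 → ℝ) → ℝ≥0∞) :
    ∫⁻ z : ℝ, f (fun _ => z) = ∫⁻ y, f y := by
  have h := (volume_preserving_funUnique (Fin 1) ℝ).symm
  have h2 := h.lintegral_comp_emb (MeasurableEquiv.measurableEmbedding _) f
  exact h2

lemma main_ineq (f0 : (Fin 2 → ℝ) → ℝ) (f1 f2 : (Fin 1 → ℝ) → ℝ)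
    (h0 : Integrable f0) (h1 : Integrable f1) (h2 : Integrable f2)
    (p0 : ∀ y, 0 ≤ f0 y) (p1 : ∀ y, 0 ≤ f1 y) (p2 : ∀ y, 0 ≤ f2 y) :
    ∫⁻ x : Fin 3 → ℝ, ENNReal.ofReal (f0 (fun j => x j.castSucc) *
        f1 (fun _ => x 2) ^ (1 / 2 : ℝ) * f2 (fun _ => x 2 - x 0) ^ (1 / 2 : ℝ))
      ≤ ENNReal.ofReal ((∫ y, f0 y) * (∫ y, f1 y) ^ (1 / 2 : ℝ) * (∫ y, f2 y) ^ (1 / 2 : ℝ)) := by
  -- rewrite the right-hand side
  have hR : ENNReal.ofReal ((∫ y, f0 y) * (∫ y, f1 y) ^ (1 / 2 : ℝ) *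
      (∫ y, f2 y) ^ (1 / 2 : ℝ)) = (∫⁻ y, ENNReal.ofReal (f0 y)) *
      ((∫⁻ y, ENNReal.ofReal (f1 y)) ^ (1 / 2 : ℝ) *
      (∫⁻ y, ENNReal.ofReal (f2 y)) ^ (1 / 2 : ℝ)) := by
    have i0 : 0 ≤ ∫ y, f0 y := integral_nonneg p0
    have i1 : 0 ≤ ∫ y, f1 y := integral_nonneg p1
    have i2 : 0 ≤ ∫ y, f2 y := integral_nonneg p2
    rw [ENNReal.ofReal_mul (by positivity), ENNReal.ofReal_mul i0,
      ← ENNReal.ofReal_rpow_of_nonneg i1 (by norm_num),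
      ← ENNReal.ofReal_rpow_of_nonneg i2 (by norm_num),
      ofReal_integral_eq_lintegral_ofReal h0 (Filter.Eventually.of_forall p0),
      ofReal_integral_eq_lintegral_ofReal h1 (Filter.Eventually.of_forall p1),
      ofReal_integral_eq_lintegral_ofReal h2 (Filter.Eventually.of_forall p2), mul_assoc]
  rw [hR]
  set K : ℝ≥0∞ := (∫⁻ y, ENNReal.ofReal (f1 y)) ^ (1 / 2 : ℝ) *
      (∫⁻ y, ENNReal.ofReal (f2 y)) ^ (1 / 2 : ℝ) with hK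
  set G : ℝ × (Fin 2 → ℝ) → ℝ≥0∞ := fun p => ENNReal.ofReal (f0 p.2 *
        f1 (fun _ => p.1) ^ (1 / 2 : ℝ) * f2 (fun _ => p.1 - p.2 0) ^ (1 / 2 : ℝ)) with hG
  have step1 : ∫⁻ x : Fin 3 → ℝ, ENNReal.ofReal (f0 (fun j => x j.castSucc) *
        f1 (fun _ => x 2) ^ (1 / 2 : ℝ) * f2 (fun _ => x 2 - x 0) ^ (1 / 2 : ℝ))
      = ∫⁻ p : ℝ × (Fin 2 → ℝ), G p := by
    have hmp := volume_preserving_piFinSuccAbove (fun _ : Fin 3 => ℝ) 2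
    rw [← hmp.lintegral_comp_emb (MeasurableEquiv.measurableEmbedding _) G]
    refine lintegral_congr fun x => ?_
    have e1 : (MeasurableEquiv.piFinSuccAbove (fun _ : Fin 3 => ℝ) 2 x).1 = x 2 := rfl
    have e2 : (MeasurableEquiv.piFinSuccAbove (fun _ : Fin 3 => ℝ) 2 x).2
        = fun j => x j.castSucc := by
      funext j
      fin_cases j <;> rfl
    simp only [hG, e1, e2]
    rfl
  have step2 : ∫⁻ p : ℝ × (Fin 2 → ℝ), G p = ∫⁻ q : (Fin 2 → ℝ) × ℝ, G q.swap := by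
    have hsw : MeasurePreserving (Prod.swap : (Fin 2 → ℝ) × ℝ → ℝ × (Fin 2 → ℝ))
        volume volume := Measure.measurePreserving_swap
    exact (hsw.lintegral_comp_emb (MeasurableEquiv.prodComm.measurableEmbedding) G).symm
  have step3 : ∫⁻ q : (Fin 2 → ℝ) × ℝ, G q.swap ≤ ∫⁻ v : Fin 2 → ℝ, ∫⁻ z : ℝ, G (z, v) := by
    exact lintegral_prod_le (μ := (volume : Measure (Fin 2 → ℝ))) (ν := (volume : Measure ℝ))
      (fun q => G q.swap)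
  rw [step1, step2]
  refine step3.trans ?_
  have m1 : AEMeasurable (fun z : ℝ => ENNReal.ofReal (f1 (fun _ => z))) := by
    have := h1.aestronglyMeasurable.aemeasurable.ennreal_ofReal
    exact this.comp_quasiMeasurePreserving
      (volume_preserving_funUnique (Fin 1) ℝ).symm.quasiMeasurePreserving
  have m2 : AEMeasurable (fun z : ℝ => ENNReal.ofReal (f2 (fun _ => z))) := by
    have := h2.aestronglyMeasurable.aemeasurable.ennreal_ofReal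
    exact this.comp_quasiMeasurePreserving
      (volume_preserving_funUnique (Fin 1) ℝ).symm.quasiMeasurePreserving
  have step4 : ∀ v : Fin 2 → ℝ, ∫⁻ z : ℝ, G (z, v) ≤ ENNReal.ofReal (f0 v) * K := by
    intro v
    have e : ∀ z : ℝ, G (z, v) = ENNReal.ofReal (f0 v) *
        (ENNReal.ofReal (f1 (fun _ => z)) ^ (1 / 2 : ℝ) *
          ENNReal.ofReal (f2 (fun _ => z - v 0)) ^ (1 / 2 : ℝ)) := by
      intro z
      simp only [hG]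
      have q1 : 0 ≤ f1 (fun _ => z) ^ (1 / 2 : ℝ) := Real.rpow_nonneg (p1 _) _
      rw [ENNReal.ofReal_mul (mul_nonneg (p0 _) q1), ENNReal.ofReal_mul (p0 _),
        ← ENNReal.ofReal_rpow_of_nonneg (p1 _) (by norm_num),
        ← ENNReal.ofReal_rpow_of_nonneg (p2 _) (by norm_num), mul_assoc]
    simp_rw [e]
    rw [lintegral_const_mul' _ _ ENNReal.ofReal_ne_top]
    refine mul_le_mul_right ?_ _
    have hh := holder_piece m1 m2 (v 0)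
    rw [hK, ← funUnique_lintegral (fun y => ENNReal.ofReal (f1 y)),
      ← funUnique_lintegral (fun y => ENNReal.ofReal (f2 y))]
    exact hh
  calc ∫⁻ v : Fin 2 → ℝ, ∫⁻ z : ℝ, G (z, v) ≤ ∫⁻ v : Fin 2 → ℝ, ENNReal.ofReal (f0 v) * K :=
        lintegral_mono step4
    _ = (∫⁻ v, ENNReal.ofReal (f0 v)) * K :=
        lintegral_mul_const'' K h0.aestronglyMeasurable.aemeasurable.ennreal_ofReal

theorem D0_feasible : D0.Feasible := by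
  refine ⟨1, fun f hf hpos => ?_⟩
  have h := main_ineq (f 0) (f 1) (f 2) (hf 0) (hf 1) (hf 2) (hpos 0) (hpos 1) (hpos 2)
  have hR : (1 : ℝ) * ∏ i, (∫ y, f i y) ^ (D0.c i)
      = (∫ y : Fin 2 → ℝ, f 0 y) * (∫ y : Fin 1 → ℝ, f 1 y) ^ (1 / 2 : ℝ) *
        (∫ y : Fin 1 → ℝ, f 2 y) ^ (1 / 2 : ℝ) := by
    rw [one_mul, Fin.prod_univ_three]
    have c0 : D0.c 0 = 1 := rfl
    have c1 : D0.c 1 = 1 / 2 := rfl
    have c2 : D0.c 2 = 1 / 2 := rfl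
    rw [c0, c1, c2, Real.rpow_one]
    rfl
  have hL : ∀ x : Fin 3 → ℝ, (∏ i, (f i (D0.B i *ᵥ x)) ^ (D0.c i))
      = f 0 (fun j => x j.castSucc) *
        f 1 (fun _ => x 2) ^ (1 / 2 : ℝ) * f 2 (fun _ => x 2 - x 0) ^ (1 / 2 : ℝ) := by
    intro x
    rw [Fin.prod_univ_three]
    have c0 : D0.c 0 = 1 := rfl
    have c1 : D0.c 1 = 1 / 2 := rfl
    have c2 : D0.c 2 = 1 / 2 := rfl
    have b0 : D0.B 0 *ᵥ x = (fun j => x j.castSucc : Fin 2 → ℝ) := by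
      change (!![1, 0, 0; 0, 1, 0] : Matrix (Fin 2) (Fin 3) ℝ) *ᵥ x = _
      funext j
      fin_cases j <;> simp [Matrix.mulVec, dotProduct, Fin.sum_univ_three]
    have b1 : D0.B 1 *ᵥ x = (fun _ => x 2 : Fin 1 → ℝ) := by
      change (!![0, 0, 1] : Matrix (Fin 1) (Fin 3) ℝ) *ᵥ x = _
      funext j
      fin_cases j
      simp [Matrix.mulVec, dotProduct, Fin.sum_univ_three]
    have b2 : D0.B 2 *ᵥ x = (fun _ => x 2 - x 0 : Fin 1 → ℝ) := by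
      change (!![-1, 0, 1] : Matrix (Fin 1) (Fin 3) ℝ) *ᵥ x = _
      funext j
      fin_cases j
      simp [Matrix.mulVec, dotProduct, Fin.sum_univ_three]
      ring
    rw [c0, c1, c2, Real.rpow_one, b0, b1, b2]
    rfl
  rw [hR]
  simp_rw [hL]
  exact h

/-! ### The result -/

lemma near_prod {x y a b δ η : ℝ} (hx : |x - a| < δ) (hy : |y - b| < η) :
    |x * y - a * b| ≤ δ * η + |a| * η + |b| * δ := by
  have e : x * y - a * b = (x - a) * (y - b) + a * (y - b) + b * (x - a) := by ring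
  rw [e]
  have h1 : |(x - a) * (y - b)| ≤ δ * η := by
    rw [abs_mul]
    exact mul_le_mul hx.le hy.le (abs_nonneg _) ((abs_nonneg _).trans hx.le)
  have h2 : |a * (y - b)| ≤ |a| * η := by
    rw [abs_mul]
    exact mul_le_mul_of_nonneg_left hy.le (abs_nonneg _)
  have h3 : |b * (x - a)| ≤ |b| * δ := by
    rw [abs_mul]
    exact mul_le_mul_of_nonneg_left hx.le (abs_nonneg _)
  calc |(x - a) * (y - b) + a * (y - b) + b * (x - a)|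
      ≤ |(x - a) * (y - b) + a * (y - b)| + |b * (x - a)| := abs_add_le _ _
    _ ≤ |(x - a) * (y - b)| + |a * (y - b)| + |b * (x - a)| := by
        gcongr
        exact abs_add_le _ _
    _ ≤ _ := by linarith

lemma wvec_near {x0 x1 x2 y0 y1 y2 z0 z1 z2 : ℝ}
    (r0 : |x0 - 0| < 1 / 10) (r1 : |x1 - 1| < 1 / 10) (r2 : |x2 - 0| < 1 / 10)
    (p0 : |y0 - 0| < 1 / 10) (p1 : |y1 - 0| < 1 / 10) (p2 : |y2 - 1| < 1 / 10)
    (q0 : |z0 - (-1)| < 1 / 10) (q1 : |z1 - 0| < 1 / 10) (q2 : |z2 - 1| < 1 / 10) :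
    x0 * (y1 * z2 - y2 * z1) + x1 * (y2 * z0 - y0 * z2) + x2 * (y0 * z1 - y1 * z0) ≠ 0 := by
  intro h0
  have a1 : |y1 * z2 - 0 * 1| ≤ 11 / 100 := (near_prod p1 q2).trans (by norm_num)
  have a2 : |y2 * z1 - 1 * 0| ≤ 11 / 100 := (near_prod p2 q1).trans (by norm_num)
  have a3 : |y2 * z0 - 1 * (-1)| ≤ 21 / 100 := (near_prod p2 q0).trans (by norm_num)
  have a4 : |y0 * z2 - 0 * 1| ≤ 11 / 100 := (near_prod p0 q2).trans (by norm_num)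
  have a5 : |y0 * z1 - 0 * 0| ≤ 1 / 100 := (near_prod p0 q1).trans (by norm_num)
  have a6 : |y1 * z0 - 0 * (-1)| ≤ 11 / 100 := (near_prod p1 q0).trans (by norm_num)
  rw [abs_le] at a1 a2 a3 a4 a5 a6
  have u0 : |(y1 * z2 - y2 * z1) - 0| < 3 / 10 := by rw [abs_lt]; constructor <;> linarith
  have u1 : |(y2 * z0 - y0 * z2) - (-1)| < 4 / 10 := by rw [abs_lt]; constructor <;> linarith
  have u2 : |(y0 * z1 - y1 * z0) - 0| < 2 / 10 := by rw [abs_lt]; constructor <;> linarith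
  have b0 : |x0 * (y1 * z2 - y2 * z1) - 0 * 0| ≤ 3 / 100 := (near_prod r0 u0).trans (by norm_num)
  have b1 : |x1 * (y2 * z0 - y0 * z2) - 1 * (-1)| ≤ 54 / 100 :=
    (near_prod r1 u1).trans (by norm_num)
  have b2 : |x2 * (y0 * z1 - y1 * z0) - 0 * 0| ≤ 2 / 100 := (near_prod r2 u2).trans (by norm_num)
  rw [abs_le] at b0 b1 b2
  linarith [b0.1, b0.2, b1.1, b1.2, b2.1, b2.2]

/-- For all matrices with entries within `1/10` of those of `B0`, `w ≠ 0`. -/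
lemma wvec_ne (D : BLDatum 3 3 ![2, 1, 1])
    (h : ∀ i a b, |D.B i a b - D0.B i a b| < 1 / 10) :
    wvec (D.B 0) (D.B 1) (D.B 2) 0 ≠ 0 ∨ wvec (D.B 0) (D.B 1) (D.B 2) 1 ≠ 0 := by
  right
  exact wvec_near (h 0 (1 : Fin 2) 0) (h 0 (1 : Fin 2) 1) (h 0 (1 : Fin 2) 2)
    (h 1 (0 : Fin 1) 0) (h 1 (0 : Fin 1) 1) (h 1 (0 : Fin 1) 2)
    (h 2 (0 : Fin 1) 0) (h 2 (0 : Fin 1) 1) (h 2 (0 : Fin 1) 2)

/-- **Gaussian-extremizable data are not dense in the feasible Brascamp-Lieb data.**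
There is a feasible datum with `k = 3`, `d = 3`, `(d₁, d₂, d₃) = (2, 1, 1)` and an `ε > 0` such
that no datum whose matrix entries are within `ε` of those of the given datum is gaussian
extremizable, whatever its exponents. -/
theorem result :
    ∃ D : BLDatum 3 3 ![2, 1, 1], D.Feasible ∧
      ∃ ε : ℝ, 0 < ε ∧ ∀ D' : BLDatum 3 3 ![2, 1, 1],
        (∀ i a b, |D'.B i a b - D.B i a b| < ε) → ¬ D'.GaussianExtremizable :=
  ⟨D0, D0_feasible, 1 / 10, by norm_num, fun D' h => not_extremizable D' (wvec_ne D' h)⟩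

end Pool.Agent.Results.MP_b8a264_an.NotDense
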